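import Pool.Agent.U920.GR.Fxd

/-!
# Numbers of characters in blocks and orders of defect groups
-/

set_option autoImplicit false
set_option linter.unusedSectionVars false
set_option linter.style.haveILetI false

open scoped BigOperators Classical

noncomputable section

namespace Pool.Agent.U920.GR

open Pool.Agent.Q90.WR Pool.Agent.H254R3.IN Pool.Agent.Q259.BW Pool.Agent.Q288.MB
open Pool.Agent.N19.RB Pool.Agent.U920.GB Pool.Agent.U920.GQ
open Pool.Agent.K3h3.MK (Wr)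

/-- a block with a defect group (the last component is not used) -/
structure IsBl (p : ℕ) (O : ValuationSubring ℂ) (X : Dat) : Prop where
  fin : Finite X.G
  block : IsBlock O X.B
  defect : IsDefectGroup p O X.B X.D

/-- the number of characters -/
def kk1 (X : Dat) : ℕ := Nat.card X.B

/-- the order of the defect group -/
def dd (X : Dat) : ℕ := Nat.card X.D

variable {O : ValuationSubring ℂ} {p : ℕ} [hp : Fact p.Prime]

theorem bl_prod {X Y : Dat} (hX : IsBl p O X) (hY : IsBl p O Y) : ∃ Z : Dat, IsBl p O Z ∧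
    Nonempty (Z.G ≃* X.G × Y.G) ∧ Nonempty (Z.D ≃* X.D × Y.D) ∧ kk1 Z = kk1 X * kk1 Y := by
  have h : ∀ i, IsBl p O (two X Y i) := by
    intro i
    cases i
    · exact hY
    · exact hX
  have := fun i => (h i).fin
  have := fun i => Fintype.ofFinite (two X Y i).G
  refine ⟨prd (two X Y), ⟨inferInstanceAs (Finite (∀ i, (two X Y i).G)),
    Tens_block fun i => (h i).block, Tens_defect (fun i => (h i).block) fun i => (h i).defect⟩,
    ⟨boolE fun i => (two X Y i).G⟩, ⟨(prdD _).trans (boolE fun i => (two X Y i).D)⟩, ?_⟩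
  have h1 : kk1 (prd (two X Y)) = ∏ i, kk1 (two X Y i) := card_Tens fun i => (h i).block.irr
  rw [h1, Fintype.prod_bool]
  rfl

theorem bl_seed (hpO : (p : ℂ) ∈ O.nonunits) : ∃ Z : Dat, IsBl p O Z ∧
    Nonempty (Z.G ≃* Multiplicative (ZMod p)) ∧ Nonempty (Z.D ≃* Multiplicative (ZMod p)) ∧
    kk1 Z = p := by
  have hp1 : ¬ p ∣ 1 := hp.out.one_lt.ne' ∘ Nat.dvd_one.mp
  have hB : IsBlock O (AC 1 p 1 1) := AC_block hpO hp1 1
  have hD := AC_defect (k := 1) hpO hp1 (1 : ZMod 1)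
  refine ⟨⟨CK 1 p 1, EV 1 p 1, AC 1 p 1 1, ∅⟩, ⟨inferInstanceAs (Finite (CK 1 p 1)), hB, hD⟩,
    ⟨ckE p⟩, ⟨(evE p).trans (ckE p)⟩, ?_⟩
  have := card_AC (p := p) (k := 1)
  rw [pow_one] at this
  exact this

theorem bl_wr {q : ℕ} (hq : q.Prime) (hqp : q ≠ p) (hpO : (p : ℂ) ∈ O.nonunits) {X : Dat}
    (hX : IsBl p O X) (hne : X.D ≠ ⊥) : ∃ Y : Dat, IsBl p O Y ∧ Y.D ≠ ⊥ ∧
      Nonempty (Y.D ≃* (Fin q → X.D)) ∧ Nonempty (Y.G ≃* Wr X.G (Multiplicative (ZMod q))) ∧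
      Nums q q (kk1 X) (kk1 Y) := by
  have : NeZero q := ⟨hq.ne_zero⟩
  have hS : Nat.card (Multiplicative (ZMod q)) = q := Nat.card_zmod q
  have hpS : ¬ p ∣ Nat.card (Multiplicative (ZMod q)) := by
    rw [hS]
    exact fun h => hqp ((Nat.prime_dvd_prime_iff_eq hp.out hq).mp h).symm
  have hS' : (Nat.card (Multiplicative (ZMod q))).Prime := by rw [hS]; exact hq
  have := hX.fin
  have := Fintype.ofFinite X.G
  have := Fintype.ofFinite (Multiplicative (ZMod q))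
  obtain ⟨e⟩ := wrq_equiv (S := Multiplicative (ZMod q)) (X := X)
  have e0 : Multiplicative (ZMod q) ≃ Fin q := Finite.equivFinOfCardEq hS
  have hz := nonunits_of_defect hpO hX.block hX.defect hne
  have hb : ActA (fun m => m = 1) (⊥ : Subgroup (ℂ ≃+* ℂ)) X.B := by
    intro σ hσ
    refine ⟨1, rfl, fun χ _ g => ?_⟩
    rw [Subgroup.mem_bot] at hσ
    rw [hσ]
    rfl
  have hE : ∀ m : ℕ, m = 1 → ¬ Nat.card (Multiplicative (ZMod q)) ∣ m := by
    rintro m rfl h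
    exact hS'.one_lt.ne' (Nat.dvd_one.mp h)
  have n1 := countA hS' hE hX.block.irr hb
  rw [fx_bot, fx_bot, cf_bot, hS] at n1
  exact ⟨wrq (Multiplicative (ZMod q)) X,
    ⟨inferInstanceAs (Finite (Wr X.G (Multiplicative (ZMod q)))),
      WS_block hpO hpS hS' hX.block hz, WS_defect hpO hpS hS' hX.block hz hX.defect⟩,
    wrq_ne hne, ⟨e.trans (MulEquiv.arrowCongr e0 (MulEquiv.refl _))⟩, ⟨MulEquiv.refl _⟩, n1⟩

/-! ### number theory -/

/-- the assumption for one sequence -/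
def Stp (m : ℕ) (Q : ℕ → Prop) : Prop :=
  ∀ q : ℕ, q.Prime → q ∣ m → ∀ n : ℕ, ∃ N : ℕ, N ≡ n [MOD m] ∧
    ∀ a, Q a → ∃ A, Q A ∧ Nums q q (N * a) A

theorem one_more1 {m : ℕ} {Q : ℕ → Prop} (hC : Stp m Q)
    {q : ℕ} (hq : q.Prime) (hqm : q ∣ m) (S : Finset ℕ) (hS : ∀ r ∈ S, r.Prime ∧ r ∣ m)
    (hlt : ∀ r ∈ S, r < q) :
    ∀ (v : ℕ) (a : ℕ), Q a → ¬ (q : ℤ) ^ (v + 1) ∣ (a : ℤ) →
      (∀ r ∈ S, ¬ (r : ℤ) ∣ (a : ℤ)) →
      ∃ a' : ℕ, Q a' ∧ ∀ r ∈ insert q S, ¬ (r : ℤ) ∣ (a' : ℤ) := by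
  have hqS : q ∉ S := fun h => lt_irrefl q (hlt q h)
  intro v
  induction v with
  | zero =>
    intro a h h1 h2
    refine ⟨a, h, fun r hr => ?_⟩
    rcases Finset.mem_insert.1 hr with rfl | hr
    · rwa [zero_add, pow_one] at h1
    · exact h2 r hr
  | succ v ih =>
    intro a h h1 h2
    by_cases haz : (q : ℤ) ∣ (a : ℤ)
    swap
    · refine ⟨a, h, fun r hr => ?_⟩
      rcases Finset.mem_insert.1 hr with rfl | hr
      · exact haz
      · exact h2 r hr
    have hch : ∀ r : ℕ, ∃ k : ℕ, r ∈ S → ∀ n : ℕ, n ≡ k [MOD r] →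
        ¬ (r : ℤ) ∣ ((n : ℤ) * a) ^ q + ((q : ℤ) ^ 2 - 1) * (n * a) := by
      intro r
      by_cases hr : r ∈ S
      · have : Fact r.Prime := ⟨(hS r hr).1⟩
        have : NeZero r := ⟨(hS r hr).1.ne_zero⟩
        have hne : (a : ZMod r) ≠ 0 := fun h3 =>
          h2 r hr ((ZMod.intCast_zmod_eq_zero_iff_dvd _ r).1 (by
            push_cast
            exact h3))
        obtain ⟨k, hk0, hk⟩ := choice hq (hlt r hr) hne
        refine ⟨k.val, fun _ n hn h3 => hk ?_⟩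
        have h4 : (n : ZMod r) = k := by
          rw [(ZMod.natCast_eq_natCast_iff n k.val r).2 hn, ZMod.natCast_val, ZMod.cast_id]
        have h5 := (ZMod.intCast_zmod_eq_zero_iff_dvd _ r).2 h3
        push_cast at h5
        rw [h4] at h5
        rw [mul_zero, zero_pow hq.ne_zero, sub_zero, sub_zero]
        exact h5
      · exact ⟨0, fun h3 => (hr h3).elim⟩
    choose k hk using hch
    have hT : ∀ r ∈ insert q S, r.Prime ∧ r ∣ m := by
      intro r hr
      rcases Finset.mem_insert.1 hr with rfl | hr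
      · exact ⟨hq, hqm⟩
      · exact hS r hr
    obtain ⟨n, hn⟩ := Nat.chineseRemainderOfFinset (fun r => if r ∈ S then k r else 1)
      (fun r => r) (insert q S) (fun r hr => (hT r hr).1.ne_zero) (by
        intro r hr s hs hrs
        exact (Nat.coprime_primes (hT r hr).1 (hT s hs).1).2 hrs)
    have hn1 : ∀ r ∈ S, n ≡ k r [MOD r] := by
      intro r hr
      have h3 := hn r (Finset.mem_insert_of_mem hr)
      rwa [if_pos hr] at h3
    have hn2 : n ≡ 1 [MOD q] := by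
      have h3 := hn q (Finset.mem_insert_self _ _)
      rwa [if_neg hqS] at h3
    obtain ⟨N, N2, N1⟩ := hC q hq hqm n
    have N3 : ∀ r ∈ insert q S, N ≡ n [MOD r] := fun r hr => N2.of_dvd (hT r hr).2
    have N4 : N ≡ 1 [MOD q] := (N3 q (Finset.mem_insert_self _ _)).trans hn2
    have N5 : ∀ r ∈ S, N ≡ k r [MOD r] := fun r hr =>
      (N3 r (Finset.mem_insert_of_mem hr)).trans (hn1 r hr)
    have hNq : ¬ q ∣ N := by
      intro h3
      have h4 : 1 ≡ 0 [MOD q] := N4.symm.trans ((Nat.modEq_zero_iff_dvd).2 h3)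
      exact hq.one_lt.ne' (Nat.dvd_one.1 ((Nat.modEq_zero_iff_dvd).1 h4))
    obtain ⟨A, h3, h4⟩ := N1 a h
    have h5 : Nums q q 0 0 := by
      unfold Nums
      rw [zero_pow hq.ne_zero, zero_mul, mul_zero]
    have haz' : N * a ≡ 0 [MOD q] :=
      (Nat.modEq_zero_iff_dvd).2 ((Int.natCast_dvd_natCast.1 haz).mul_left N)
    refine ih A h3 (fun h6 => h1 ?_) (fun r hr h6 => ?_)
    · have h7 := (key' hq h4 h5 haz' (v + 1)).2 (by
        rw [Nat.cast_zero, sub_zero]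
        exact h6)
      rw [Nat.cast_zero, sub_zero, Nat.cast_mul] at h7
      have h9 : IsCoprime ((q : ℤ) ^ (v + 1 + 1)) (N : ℤ) :=
        IsCoprime.pow_left (Nat.isCoprime_iff_coprime.2 ((Nat.Prime.coprime_iff_not_dvd hq).2 hNq))
      exact h9.dvd_of_dvd_mul_left h7
    · refine hk r hr N (N5 r hr) ?_
      unfold Nums at h4
      have h4' : (q : ℤ) * A + (N * a) = (N * a) ^ q + q * (N * a * q) := by exact_mod_cast h4
      have h7 : ((N : ℤ) * a) ^ q + ((q : ℤ) ^ 2 - 1) * (N * a) =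
          (q : ℤ) * (A : ℤ) := by linear_combination -h4'
      rw [h7]
      exact h6.mul_left _

theorem sep1 {m : ℕ} {Q : ℕ → Prop} (hC : Stp m Q) (hQ : ∀ a, Q a → a ≠ 0) (S : Finset ℕ) :
    (∀ r ∈ S, r.Prime ∧ r ∣ m) → ∀ a : ℕ, Q a →
      ∃ a' : ℕ, Q a' ∧ ∀ r ∈ S, ¬ (r : ℤ) ∣ (a' : ℤ) := by
  induction S using Finset.induction_on_max with
  | empty =>
    intro _ a h
    exact ⟨a, h, fun r hr => absurd hr (Finset.notMem_empty r)⟩
  | insert q S hlt ih =>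
    intro hS a h
    obtain ⟨a, h, h2⟩ := ih (fun r hr => hS r (Finset.mem_insert_of_mem hr)) a h
    have hq := hS q (Finset.mem_insert_self _ _)
    have hne' : (a : ℤ) ≠ 0 := by
      have := hQ a h
      omega
    obtain ⟨v, hv⟩ := exists_pow hq.1 hne'
    exact one_more1 hC hq.1 hq.2 S
      (fun r hr => hS r (Finset.mem_insert_of_mem hr)) hlt v a h hv h2

theorem coprime1 {m : ℕ} (hm0 : m ≠ 0) {Q : ℕ → Prop} (hC : Stp m Q) (hQ : ∀ a, Q a → a ≠ 0)
    {a : ℕ} (h : Q a) : ∃ a' : ℕ, Q a' ∧ a'.Coprime m := by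
  obtain ⟨a, h, hS⟩ := sep1 hC hQ m.primeFactors
    (fun r hr => ⟨Nat.prime_of_mem_primeFactors hr, Nat.dvd_of_mem_primeFactors hr⟩) a h
  refine ⟨a, h, ?_⟩
  by_contra h1
  obtain ⟨q, hq, hqd⟩ := Nat.exists_prime_and_dvd h1
  exact hS q (Nat.mem_primeFactors.2 ⟨hq, hqd.trans (Nat.gcd_dvd_right _ _), hm0⟩)
    (Int.natCast_dvd_natCast.2 (hqd.trans (Nat.gcd_dvd_left _ _)))

end Pool.Agent.U920.GR
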